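import Pool.Agent.Q46.MH.Zech

/-!
# Record prime gaps around both discrete logarithms of the solutions of `x + y = 1` modulo a prime

Let `g` be a primitive root modulo the prime `p` and `a`, `b`, `c` prime to `p`.  The equation `a g^i + b g^j = c mod p`
(for `b = - 1`, `c = - 1`, `a = 1`: `g^j = 1 + g^i`, so that `j` is Zech's logarithm of `i`) has `p - 2` solutions
`(i, j)` in `[0, p - 1)²`.  For every `0 < ε ≤ 1` there is `κ > 0` such that for all large `p`, all `g`, `a`, `b`, `c` and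
all intervals `I`, `J` in `[0, p - 1)` with `|I| |J| ≥ p^(3/2 + ε)` at least `|I| |J| p^(-1 - ε)` of the solutions in
`I × J` are such that no prime lies at distance at most `κ log p (log₂ p)² log₄ p / (log₃ p)²` of `i`, and none of `j`.

Design and proof: helper46 (modules `Pool.Agent.Q46.MH.*`: the completion of sums over boxes and the reduction to Jacobi
sums), on the covering criterion for vectors of integers of the starting repository (`Pool.Agent.Y961.JR.critJ`).
-/

set_option autoImplicit false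

namespace Pool.Agent.Q20.Old.ZechLogarithms

/-- the record scale `log x (log₂ x)² log₄ x / (log₃ x)²` -/
noncomputable def scale (x : ℝ) : ℝ :=
  Real.log x * (Real.log (Real.log x)) ^ 2 * Real.log (Real.log (Real.log (Real.log x))) /
    (Real.log (Real.log (Real.log x))) ^ 2

/-- no prime at distance at most `K` of `n` -/
def Isolated (K : ℝ) (n : ℕ) : Prop := ∀ q : ℕ, q.Prime → K < |(q : ℝ) - n|

/-- **Isolated discrete logarithms.** For all large primes `p`, all primitive roots `g` modulo `p`, all `a`, `b`, `c` prime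
to `p` and all intervals `[A, A + M)` and `[B, B + N)` in `[0, p - 1)` with `M N ≥ p^(3/2 + ε)`, at least
`M N p^(-1 - ε)` of the solutions `(i, j)` of `a g^i + b g^j = c mod p` in the box have both `i` and `j` isolated on the
record scale. -/
theorem result : ∀ ε : ℝ, 0 < ε → ε ≤ 1 → ∃ κ : ℝ, 0 < κ ∧ ∃ p₀ : ℕ, ∀ p : ℕ, p₀ ≤ p → p.Prime →
    ∀ g a b c : ℤ, orderOf (g : ZMod p) = p - 1 → ¬ (p : ℤ) ∣ a → ¬ (p : ℤ) ∣ b → ¬ (p : ℤ) ∣ c →
    ∀ A M B N : ℕ, A + M ≤ p - 1 → B + N ≤ p - 1 → (p : ℝ) ^ (3 / 2 + ε) ≤ (M : ℝ) * N →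
      ∃ G : Finset (ℕ × ℕ), (M : ℝ) * N / p * (p : ℝ) ^ (-ε) ≤ G.card ∧
        ∀ z ∈ G, (A ≤ z.1 ∧ z.1 < A + M) ∧ (B ≤ z.2 ∧ z.2 < B + N) ∧
          (p : ℤ) ∣ a * g ^ z.1 + b * g ^ z.2 - c ∧
          Isolated (κ * scale p) z.1 ∧ Isolated (κ * scale p) z.2 :=
  fun ε h0 h1 => Pool.Agent.Q46.MH.zech ε h0 h1

end Pool.Agent.Q20.Old.ZechLogarithms
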